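import Pool.Agent.Helper99.SI.StT

set_option autoImplicit false

/-! Module T6 of the project SI (MP_181f94_al, owner helper99). -/

namespace Pool.Agent.Helper18.SI

open Pool.Agent.Helper99.SI

section Grading

variable {L : Type} [Ring L] [Algebra ℂ L] [StarRing L]

theorem hom_ne (B : ZGr L) {a l : ℤ} {y : L} (h : B.p a y = y) (hl : l ≠ a) : B.p l y = 0 := by
  rw [← h, B.pp, if_neg hl]

theorem p_mul_hom [StarModule ℂ L] (h0 : StA0) (B : ZGr L) {c : ℤ} {z : L} (h : B.p c z = z)
    (k : ℤ) (y : L) : B.p k (y * z) = B.p (k - c) y * z := by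
  rw [(h0 L B).1 k y z]
  rw [finsum_eq_single _ (k - c)]
  · have : k - (k - c) = c := by ring
    rw [this, h]
  · intro i hi
    rw [hom_ne B h (l := k - i) (by omega), mul_zero]

theorem hom_mul_p [StarModule ℂ L] (h0 : StA0) (B : ZGr L) {c : ℤ} {z : L} (h : B.p c z = z)
    (k : ℤ) (y : L) : B.p k (z * y) = z * B.p (k - c) y := by
  rw [(h0 L B).1 k z y]
  rw [finsum_eq_single _ c]
  · rw [h]
  · intro i hi
    rw [hom_ne B h hi, zero_mul]

/-- All components of degree less than d vanish. -/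
def Low (B : ZGr L) (d : ℤ) (y : L) : Prop := ∀ l < d, B.p l y = 0

theorem Low.sum {ι : Type} {B : ZGr L} {d : ℤ} (s : Finset ι) (f : ι → L)
    (h : ∀ i ∈ s, Low B d (f i)) : Low B d (∑ i ∈ s, f i) := by
  intro l hl
  rw [map_sum]
  exact Finset.sum_eq_zero fun i hi => h i hi l hl

/-- The submodule of elements with components in degrees at least d. -/
def lowSub (B : ZGr L) (d : ℤ) : Submodule ℂ L where
  carrier := {y | Low B d y}
  add_mem' := by
    intro a b ha hb l hl
    rw [map_add, ha l hl, hb l hl, add_zero]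
  zero_mem' := by
    intro l _
    exact map_zero _
  smul_mem' := by
    intro c a ha l hl
    rw [map_smul, ha l hl, smul_zero]

theorem wd_hom (B : ZGr L) {n : ℕ} (x : Fin n → L) (hx : ∀ i, B.p 1 (x i) = x i) (μ : W n) :
    B.p (μ.length : ℤ) (wd x μ) = wd x μ := by
  induction μ with
  | nil => simpa [wd] using B.one
  | cons i μ ih =>
    have h := B.mul 1 (μ.length : ℤ) (x i) (wd x μ)
    rw [hx, ih] at h
    have e : ((i :: μ).length : ℤ) = 1 + (μ.length : ℤ) := by
      rw [List.length_cons]; push_cast; ring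
    rw [e]
    have e2 : wd x (i :: μ) = x i * wd x μ := by simp [wd]
    rw [e2]
    exact h

theorem star_wd_hom (B : ZGr L) {n : ℕ} (x : Fin n → L) (hx : ∀ i, B.p 1 (x i) = x i) (μ : W n) :
    B.p (-(μ.length : ℤ)) (star (wd x μ)) = star (wd x μ) := by
  rw [B.st, wd_hom B x hx]

end Grading

theorem hT6 (h1 : StA0) (h2 : StT1) (h3 : StT3) : StT6 := by
  intro n V E _ _ _ _ G L _ _ _ _ T hn hsc hto j
  obtain ⟨-, -, -, -, -, hlev, hone⟩ := h2 n V E G L T (by omega)
  obtain ⟨m0, hm0⟩ := h3 n V E G L T hn hsc hto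
  set e : Fin n → L := T.fE.e with he
  set S : Submodule ℂ L := Submodule.span ℂ (Set.range (wd e)) with hS
  have hge : ∀ i, T.g.p 1 (e i) = e i := T.ge
  -- elements of S have gauge degrees at least zero
  have hS0 : ∀ s ∈ S, Low T.g 0 s := by
    intro s hs
    have : S ≤ lowSub T.g 0 := by
      rw [hS, Submodule.span_le]
      rintro _ ⟨μ, rfl⟩
      intro l hl
      exact hom_ne T.g (wd_hom T.g e hge μ) (by omega)
    exact this hs
  -- the bound of T3 for elements of S
  have hS1 : ∀ s ∈ S, ∀ (i : ℤ) (κ : W n), m0 ≤ κ.length → T.b.p i s * wd e κ ∈ S := by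
    intro s hs i κ hκ
    have : S ≤ S.comap ((LinearMap.mulRight ℂ (wd e κ)) ∘ₗ T.b.p i) := by
      rw [hS, Submodule.span_le]
      rintro _ ⟨μ, rfl⟩
      exact hm0 μ κ i hκ
    exact this hs
  -- step 1
  have step1 : ∀ s ∈ S, ∀ i : ℤ, Low T.g (-(m0 : ℤ)) (T.b.p i s) := by
    intro s hs i
    have e1 : T.b.p i s = ∑ κ : Fin m0 → Fin n,
        T.b.p i s * wd e (List.ofFn κ) * star (wd e (List.ofFn κ)) := by
      simp_rw [mul_assoc]
      rw [← Finset.mul_sum, hone m0, mul_one]
    rw [e1]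
    refine Low.sum _ _ fun κ _ => ?_
    intro l hl
    have hlen : (List.ofFn κ).length = m0 := by simp
    have h4 := star_wd_hom T.g e hge (List.ofFn κ)
    rw [hlen] at h4
    rw [p_mul_hom h1 T.g h4]
    rw [hS0 _ (hS1 s hs i (List.ofFn κ) (by rw [hlen])) _ (by omega), zero_mul]
  -- step 2
  obtain ⟨J, hJ⟩ : ∃ J : ℕ, j + (m0 : ℤ) ≤ J := ⟨(j + m0).toNat, Int.self_le_toNat _⟩
  have hlevel : ∀ κ : Fin J → Fin n, ∃ k : ℕ, ∀ (l : ℤ) (μ : W n), k ≤ μ.length →
      T.b.p l (star (wd e (List.ofFn κ))) * wd e μ ∈ S := by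
    intro κ
    set a := star (wd e (List.ofFn κ)) with ha
    choose lev hlev' using fun l : ℤ => hlev (T.b.p l a)
    refine ⟨(T.b.fin a).toFinset.sup lev, ?_⟩
    intro l μ hμ
    by_cases hl : T.b.p l a = 0
    · rw [hl, zero_mul]
      exact S.zero_mem
    · refine hlev' l μ (le_trans ?_ hμ)
      exact Finset.le_sup (f := lev) ((T.b.fin a).mem_toFinset.mpr hl)
  choose kk hkk using hlevel
  refine ⟨Finset.univ.sup kk, ?_⟩
  intro μ hμ i l hl
  have e2 : T.b.p i (wd e μ) = ∑ κ : Fin J → Fin n,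
      wd e (List.ofFn κ) * (star (wd e (List.ofFn κ)) * T.b.p i (wd e μ)) := by
    simp_rw [← mul_assoc]
    rw [← Finset.sum_mul, hone J, one_mul]
  have h5 : Low T.g ((J : ℤ) - m0) (T.b.p i (wd e μ)) := by
    rw [e2]
    refine Low.sum _ _ fun κ _ => ?_
    have hlen : (List.ofFn κ).length = J := by simp
    have h6 : Low T.g (-(m0 : ℤ)) (star (wd e (List.ofFn κ)) * T.b.p i (wd e μ)) := by
      set a := star (wd e (List.ofFn κ)) with ha
      have e3 : a * T.b.p i (wd e μ) =
          ∑ l ∈ (T.b.fin a).toFinset, T.b.p l a * T.b.p i (wd e μ) := by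
        rw [← Finset.sum_mul]
        congr 1
        conv_lhs => rw [← T.b.sum a]
        rw [finsum_eq_sum_of_support_subset]
        intro l hl
        simpa using hl
      rw [e3]
      refine Low.sum _ _ fun l _ => ?_
      have e4 : T.b.p l a * T.b.p i (wd e μ) = T.b.p (l + i) (T.b.p l a * wd e μ) := by
        have h7 : T.b.p l (T.b.p l a) = T.b.p l a := by rw [T.b.pp, if_pos rfl]
        rw [hom_mul_p h1 T.b h7]
        congr 2
        ring_nf
      rw [e4]
      exact step1 _ (hkk κ l μ (le_trans (Finset.le_sup (Finset.mem_univ κ)) hμ)) _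
    intro l hl
    have h8 := wd_hom T.g e hge (List.ofFn κ)
    rw [hlen] at h8
    rw [hom_mul_p h1 T.g h8, h6 _ (by omega), mul_zero]
  exact h5 l (by omega)

end Pool.Agent.Helper18.SI
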